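import Pool.Agent.U398.MV.Stm8

set_option autoImplicit false

/-!
# Package DET of Project MV8

The least mean square deviation of the staircase from a line on a window is the variance of the fluctuation in the window,
up to `O(1 + Gl²)` where `Gl` is the linear component.
-/

namespace Pool.Agent.U505.MV8.DET

open MeasureTheory Filter Topology Set
open Pool.Agent.U398.MV

/-- measurable and bounded on `[0, l]` -/
def Good (l : ℝ) (f : ℝ → ℝ) : Prop := Measurable f ∧ ∃ M : ℝ, ∀ x ∈ Icc (0:ℝ) l, |f x| ≤ M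

lemma Good.add {l : ℝ} {f g : ℝ → ℝ} (hf : Good l f) (hg : Good l g) : Good l (fun x => f x + g x) := by
  obtain ⟨hm, M, hM⟩ := hf
  obtain ⟨hm', M', hM'⟩ := hg
  refine ⟨hm.add hm', M + M', fun x hx => ?_⟩
  exact (abs_add_le _ _).trans (add_le_add (hM x hx) (hM' x hx))

lemma Good.mul {l : ℝ} {f g : ℝ → ℝ} (hf : Good l f) (hg : Good l g) : Good l (fun x => f x * g x) := by
  obtain ⟨hm, M, hM⟩ := hf
  obtain ⟨hm', M', hM'⟩ := hg
  refine ⟨hm.mul hm', M * M', fun x hx => ?_⟩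
  rw [abs_mul]
  exact mul_le_mul (hM x hx) (hM' x hx) (abs_nonneg _) ((abs_nonneg _).trans (hM x hx))

lemma good_const (l c : ℝ) : Good l (fun _ => c) := ⟨measurable_const, |c|, fun _ _ => le_rfl⟩

lemma good_id (l : ℝ) : Good l (fun x => x) :=
  ⟨measurable_id, l, fun x hx => by rw [abs_of_nonneg hx.1]; exact hx.2⟩

lemma good_e (l : ℝ) : Good l (fun x => x - l / 2) := by
  have := (good_id l).add (good_const l (-(l / 2)))
  simpa [sub_eq_add_neg] using this

lemma Good.sq {l : ℝ} {f : ℝ → ℝ} (hf : Good l f) : Good l (fun x => f x ^ 2) := by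
  have h1 := hf.mul hf
  have h2 : (fun x => f x ^ 2) = fun x => f x * f x := by funext x; ring
  rw [h2]; exact h1

lemma Good.integrableOn {l : ℝ} {f : ℝ → ℝ} (h : Good l f) : IntegrableOn f (Icc 0 l) := by
  obtain ⟨hm, M, hM⟩ := h
  refine Measure.integrableOn_of_bounded (M := M) ?_ hm.aestronglyMeasurable ?_
  · simp
  · exact (ae_restrict_iff' measurableSet_Icc).2 (Eventually.of_forall fun x hx => by simpa using hM x hx)

lemma Good.ii {l : ℝ} (hl : 0 ≤ l) {f : ℝ → ℝ} (h : Good l f) : IntervalIntegrable f volume 0 l :=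
  (intervalIntegrable_iff_integrableOn_Icc_of_le hl).2 h.integrableOn

lemma int_e (l : ℝ) : ∫ x in (0:ℝ)..l, (x - l / 2) = 0 := by
  rw [intervalIntegral.integral_sub (by simp) (by simp)]
  simp
  ring

lemma int_e2 (l : ℝ) : ∫ x in (0:ℝ)..l, (x - l / 2) ^ 2 = l ^ 3 / 12 := by
  rw [intervalIntegral.integral_comp_sub_right (fun x => x ^ 2) (l / 2), integral_pow]
  norm_num
  ring

lemma lin {l : ℝ} (hl : 0 ≤ l) {f : ℝ → ℝ} (hf : Good l f) (c1 c2 c3 c4 c5 c6 : ℝ) :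
    ∫ x in (0:ℝ)..l, (c1 * f x ^ 2 + c2 * f x + c3 * ((x - l / 2) * f x) + c4 + c5 * (x - l / 2) + c6 * (x - l / 2) ^ 2) =
      c1 * (∫ x in (0:ℝ)..l, f x ^ 2) + c2 * (∫ x in (0:ℝ)..l, f x) + c3 * (∫ x in (0:ℝ)..l, (x - l / 2) * f x) + c4 * l +
        c6 * (l ^ 3 / 12) := by
  have g1 : Good l (fun x => c1 * f x ^ 2) := (good_const l c1).mul hf.sq
  have g2 : Good l (fun x => c2 * f x) := (good_const l c2).mul hf
  have g3 : Good l (fun x => c3 * ((x - l / 2) * f x)) := (good_const l c3).mul ((good_e l).mul hf)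
  have g4 : Good l (fun _ => c4) := good_const l c4
  have g5 : Good l (fun x => c5 * (x - l / 2)) := (good_const l c5).mul (good_e l)
  have g6 : Good l (fun x => c6 * (x - l / 2) ^ 2) := (good_const l c6).mul (good_e l).sq
  rw [intervalIntegral.integral_add ((((g1.add g2).add g3).add g4).add g5 |>.ii hl) (g6.ii hl),
    intervalIntegral.integral_add (((g1.add g2).add g3).add g4 |>.ii hl) (g5.ii hl),
    intervalIntegral.integral_add ((g1.add g2).add g3 |>.ii hl) (g4.ii hl),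
    intervalIntegral.integral_add ((g1.add g2) |>.ii hl) (g3.ii hl),
    intervalIntegral.integral_add (g1.ii hl) (g2.ii hl)]
  simp only [intervalIntegral.integral_const_mul, int_e, int_e2, intervalIntegral.integral_const]
  simp
  ring

/-- upper bound -/
lemma upper {l : ℝ} (hl : 0 < l) {f ρ : ℝ → ℝ} (hf : Good l f) (hρ : Good l ρ) {F R : ℝ}
    (hF : ∀ x ∈ Icc (0:ℝ) l, |f x| ≤ F) (hR : ∀ x ∈ Icc (0:ℝ) l, |ρ x| ≤ R) (hFR : F * R ≤ 1) (hR1 : R ≤ 1) (m : ℝ)
    (hm : m = 1 / l * ∫ x in (0:ℝ)..l, f x) :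
    1 / l * (∫ x in (0:ℝ)..l, (f x + ρ x - m) ^ 2) ≤ 1 / l * (∫ x in (0:ℝ)..l, f x ^ 2) - m ^ 2 + 5 := by
  have hF0 : 0 ≤ F := (abs_nonneg _).trans (hF 0 ⟨le_rfl, hl.le⟩)
  have hR0 : 0 ≤ R := (abs_nonneg _).trans (hR 0 ⟨le_rfl, hl.le⟩)
  have hI : (∫ x in (0:ℝ)..l, f x) = m * l := by rw [hm]; field_simp
  have hmF : |m| ≤ F := by
    have h1 : |∫ x in (0:ℝ)..l, f x| ≤ F * l := by
      have := intervalIntegral.norm_integral_le_of_norm_le_const (a := (0:ℝ)) (b := l) (f := f) (C := F) (fun x hx => by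
        rw [uIoc_of_le hl.le] at hx
        exact hF x ⟨hx.1.le, hx.2⟩)
      simpa [abs_of_pos hl] using this
    rw [hI, abs_mul, abs_of_pos hl] at h1
    exact le_of_mul_le_mul_right h1 hl
  have hmono : (∫ x in (0:ℝ)..l, (f x + ρ x - m) ^ 2) ≤
      ∫ x in (0:ℝ)..l, (1 * f x ^ 2 + (-2 * m) * f x + 0 * ((x - l / 2) * f x) + (m ^ 2 + 5) + 0 * (x - l / 2) + 0 * (x - l / 2) ^ 2) := by
    refine intervalIntegral.integral_mono_on hl.le ?_ ?_ ?_
    · have := ((hf.add hρ).add (good_const l (-m))).sq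
      refine Good.ii hl.le ?_
      simpa [sub_eq_add_neg] using this
    · refine Good.ii hl.le ?_
      exact (((((good_const l 1).mul hf.sq).add ((good_const l (-2 * m)).mul hf)).add ((good_const l 0).mul ((good_e l).mul hf))).add
        (good_const l (m ^ 2 + 5))).add ((good_const l 0).mul (good_e l)) |>.add ((good_const l 0).mul (good_e l).sq)
    · intro x hx
      have h1 := abs_le.1 (hF x hx)
      have h2 := abs_le.1 (hR x hx)
      have h3 := abs_le.1 hmF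
      have h4 : |(f x - m) * ρ x| ≤ 2 * F * R := by
        rw [abs_mul]
        refine mul_le_mul ?_ (hR x hx) (abs_nonneg _) (by positivity)
        rw [abs_le]; constructor <;> linarith
      have h5 := (abs_le.1 h4).2
      have h6 : ρ x ^ 2 ≤ 1 := by
        rw [← sq_abs]
        have : |ρ x| ≤ 1 := (hR x hx).trans hR1
        nlinarith [abs_nonneg (ρ x)]
      nlinarith
  rw [lin hl.le hf] at hmono
  rw [hI] at hmono
  have h7 : 1 / l * (∫ x in (0:ℝ)..l, (f x + ρ x - m) ^ 2) ≤ 1 / l * (1 * (∫ x in (0:ℝ)..l, f x ^ 2) + (-2 * m) * (m * l) +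
      0 * (∫ x in (0:ℝ)..l, (x - l / 2) * f x) + (m ^ 2 + 5) * l + 0 * (l ^ 3 / 12)) :=
    mul_le_mul_of_nonneg_left hmono (by positivity)
  refine h7.trans (le_of_eq ?_)
  field_simp
  ring

/-- lower bound -/
lemma lower {l : ℝ} (hl : 0 < l) {f ρ : ℝ → ℝ} (hf : Good l f) (hρ : Good l ρ) {F R : ℝ}
    (hF : ∀ x ∈ Icc (0:ℝ) l, |f x| ≤ F) (hR : ∀ x ∈ Icc (0:ℝ) l, |ρ x| ≤ R) (hFR : F * R ≤ 1) (hR1 : R ≤ 1) (m G : ℝ)
    (hm : m = 1 / l * ∫ x in (0:ℝ)..l, f x) (hG : G = 1 / l ^ 2 * ∫ x in (0:ℝ)..l, (x - l / 2) * f x) (a b : ℝ) :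
    1 / l * (∫ x in (0:ℝ)..l, f x ^ 2) - m ^ 2 - 5 - 24 * G ^ 2 ≤
      1 / l * (∫ x in (0:ℝ)..l, (f x + ρ x - a - b * (x - l / 2)) ^ 2) := by
  have hF0 : 0 ≤ F := (abs_nonneg _).trans (hF 0 ⟨le_rfl, hl.le⟩)
  have hR0 : 0 ≤ R := (abs_nonneg _).trans (hR 0 ⟨le_rfl, hl.le⟩)
  have hI : (∫ x in (0:ℝ)..l, f x) = m * l := by rw [hm]; field_simp
  have hJ' : ∀ J : ℝ, G = 1 / l ^ 2 * J → J = G * l ^ 2 := fun J h => by rw [h]; field_simp
  have hJ : (∫ x in (0:ℝ)..l, (x - l / 2) * f x) = G * l ^ 2 := hJ' _ hG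
  have hmF : |m| ≤ F := by
    have h1 : |∫ x in (0:ℝ)..l, f x| ≤ F * l := by
      have := intervalIntegral.norm_integral_le_of_norm_le_const (a := (0:ℝ)) (b := l) (f := f) (C := F) (fun x hx => by
        rw [uIoc_of_le hl.le] at hx
        exact hF x ⟨hx.1.le, hx.2⟩)
      simpa [abs_of_pos hl] using this
    rw [hI, abs_mul, abs_of_pos hl] at h1
    exact le_of_mul_le_mul_right h1 hl
  obtain ⟨w, hw⟩ : ∃ w : ℝ, w = a - m := ⟨_, rfl⟩
  have hmono : (∫ x in (0:ℝ)..l, (1 * f x ^ 2 + (-2 * m - 2 * w) * f x + (-2 * b) * ((x - l / 2) * f x) +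
      (m ^ 2 + 2 * m * w + w ^ 2 / 2 - 5) + (2 * m * b + w * b) * (x - l / 2) + (b ^ 2 / 2) * (x - l / 2) ^ 2)) ≤
      (∫ x in (0:ℝ)..l, (f x + ρ x - a - b * (x - l / 2)) ^ 2) := by
    refine intervalIntegral.integral_mono_on hl.le ?_ ?_ ?_
    · refine Good.ii hl.le ?_
      exact (((((good_const l 1).mul hf.sq).add ((good_const l (-2 * m - 2 * w)).mul hf)).add
        ((good_const l (-2 * b)).mul ((good_e l).mul hf))).add
        (good_const l (m ^ 2 + 2 * m * w + w ^ 2 / 2 - 5))).add ((good_const l (2 * m * b + w * b)).mul (good_e l)) |>.add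
        ((good_const l (b ^ 2 / 2)).mul (good_e l).sq)
    · have := (((hf.add hρ).add (good_const l (-a))).add ((good_const l (-b)).mul (good_e l))).sq
      refine Good.ii hl.le ?_
      have h2 : (fun x => (f x + ρ x - a - b * (x - l / 2)) ^ 2) = (fun x => (f x + ρ x + -a + -b * (x - l / 2)) ^ 2) := by
        funext x; ring
      rw [h2]; exact this
    · intro x hx
      have h1 := abs_le.1 (hF x hx)
      have h2 := abs_le.1 (hR x hx)
      have h3 := abs_le.1 hmF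
      have h4 : |(f x - m) * ρ x| ≤ 2 * F * R := by
        rw [abs_mul]
        refine mul_le_mul ?_ (hR x hx) (abs_nonneg _) (by positivity)
        rw [abs_le]; constructor <;> linarith
      have h5 := (abs_le.1 h4).1
      have h6 : ρ x ^ 2 ≤ 1 := by
        rw [← sq_abs]
        have : |ρ x| ≤ 1 := (hR x hx).trans hR1
        nlinarith [abs_nonneg (ρ x)]
      obtain ⟨q, hq⟩ : ∃ q : ℝ, q = w + b * (x - l / 2) := ⟨_, rfl⟩
      have e1 : (f x + ρ x - a - b * (x - l / 2)) ^ 2 = ((f x - m) + ρ x - q) ^ 2 := by rw [hq, hw]; ring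
      have e2 : 1 * f x ^ 2 + (-2 * m - 2 * w) * f x + (-2 * b) * ((x - l / 2) * f x) +
        (m ^ 2 + 2 * m * w + w ^ 2 / 2 - 5) + (2 * m * b + w * b) * (x - l / 2) + (b ^ 2 / 2) * (x - l / 2) ^ 2 =
        (f x - m) ^ 2 - 2 * (f x - m) * q + q ^ 2 / 2 - 5 := by rw [hq]; ring
      rw [e1, e2]
      nlinarith [sq_nonneg (2 * ρ x - q)]
  rw [lin hl.le hf, hI, hJ] at hmono
  have h7 := mul_le_mul_of_nonneg_left hmono (show (0:ℝ) ≤ 1 / l by positivity)
  refine le_trans ?_ h7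
  have e3 : 1 / l * (1 * (∫ x in (0:ℝ)..l, f x ^ 2) + (-2 * m - 2 * w) * (m * l) + (-2 * b) * (G * l ^ 2) +
      (m ^ 2 + 2 * m * w + w ^ 2 / 2 - 5) * l + (b ^ 2 / 2) * (l ^ 3 / 12)) =
      1 / l * (∫ x in (0:ℝ)..l, f x ^ 2) - m ^ 2 - 5 + w ^ 2 / 2 + (b * l) ^ 2 / 24 - 2 * (b * l) * G := by
    field_simp
    ring
  rw [e3]
  nlinarith [sq_nonneg (b * l - 24 * G), sq_nonneg w]

/-- the variance as an integral over the square -/
lemma var_eq {l : ℝ} (hl : 0 < l) {f : ℝ → ℝ} (hf : Good l f) :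
    1 / 2 * (∫ p : ℝ × ℝ, (f p.1 - f p.2) ^ 2 ∂(mu2 l)) =
      1 / l * (∫ x in (0:ℝ)..l, f x ^ 2) - (1 / l * ∫ x in (0:ℝ)..l, f x) ^ 2 := by
  unfold mu2
  rw [integral_smul_measure, Measure.volume_eq_prod, ← Measure.prod_restrict]
  have i1 : Integrable f (volume.restrict (Icc (0:ℝ) l)) := hf.integrableOn
  have i2 : Integrable (fun x => f x ^ 2) (volume.restrict (Icc (0:ℝ) l)) := hf.sq.integrableOn
  have i0 : Integrable (fun _ : ℝ => (1:ℝ)) (volume.restrict (Icc (0:ℝ) l)) := (good_const l 1).integrableOn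
  have e1 : (fun p : ℝ × ℝ => (f p.1 - f p.2) ^ 2) = fun p => (f p.1 ^ 2 * 1 + (-2) * (f p.1 * f p.2)) + 1 * f p.2 ^ 2 := by
    funext p; ring
  rw [e1]
  have j1 : Integrable (fun p : ℝ × ℝ => f p.1 ^ 2 * (1:ℝ)) ((volume.restrict (Icc (0:ℝ) l)).prod (volume.restrict (Icc (0:ℝ) l))) :=
    i2.mul_prod i0
  have j2 : Integrable (fun p : ℝ × ℝ => f p.1 * f p.2) ((volume.restrict (Icc (0:ℝ) l)).prod (volume.restrict (Icc (0:ℝ) l))) :=
    i1.mul_prod i1
  have j3 : Integrable (fun p : ℝ × ℝ => (1:ℝ) * f p.2 ^ 2) ((volume.restrict (Icc (0:ℝ) l)).prod (volume.restrict (Icc (0:ℝ) l))) :=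
    i0.mul_prod i2
  have j12 : Integrable (fun p : ℝ × ℝ => f p.1 ^ 2 * (1:ℝ) + (-2) * (f p.1 * f p.2))
      ((volume.restrict (Icc (0:ℝ) l)).prod (volume.restrict (Icc (0:ℝ) l))) := j1.add (j2.const_mul (-2))
  rw [integral_add j12 j3, integral_add j1 (j2.const_mul (-2)), integral_const_mul,
    integral_prod_mul (fun x => f x ^ 2) (fun _ => (1:ℝ)), integral_prod_mul f f, integral_prod_mul (fun _ => (1:ℝ)) (fun x => f x ^ 2)]
  have k1 : (∫ x in Icc (0:ℝ) l, f x ^ 2) = ∫ x in (0:ℝ)..l, f x ^ 2 := by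
    rw [integral_Icc_eq_integral_Ioc, intervalIntegral.integral_of_le hl.le]
  have k2 : (∫ x in Icc (0:ℝ) l, f x) = ∫ x in (0:ℝ)..l, f x := by
    rw [integral_Icc_eq_integral_Ioc, intervalIntegral.integral_of_le hl.le]
  have k3 : (∫ _x in Icc (0:ℝ) l, (1:ℝ)) = l := by simp [hl.le]
  rw [k1, k2, k3, ENNReal.toReal_ofReal (by positivity), smul_eq_mul]
  field_simp
  ring

/-- the remainder of the tangent line -/
noncomputable def rho (t x : ℝ) : ℝ := Mf (t + x) - Mf t - x * (Real.log (t / (2 * Real.pi)) / (2 * Real.pi))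

lemma rho_bd {t x : ℝ} (ht : 0 < t) (hx : 0 ≤ x) : |rho t x| ≤ x ^ 2 / (2 * Real.pi * t) := by
  have hpi := Real.pi_pos
  obtain ⟨s, hs⟩ : ∃ s : ℝ, s = t / (2 * Real.pi) := ⟨_, rfl⟩
  obtain ⟨h, hh⟩ : ∃ h : ℝ, h = x / (2 * Real.pi) := ⟨_, rfl⟩
  have hs0 : 0 < s := by rw [hs]; positivity
  have hh0 : 0 ≤ h := by rw [hh]; positivity
  have hsh : (t + x) / (2 * Real.pi) = s + h := by rw [hs, hh]; ring
  have hlog : Real.log (s + h) = Real.log s + Real.log ((s + h) / s) := by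
    rw [Real.log_div (by positivity) hs0.ne']; ring
  have e : rho t x = (s + h) * Real.log ((s + h) / s) - h := by
    unfold rho Mf
    rw [hsh, ← hs, hlog]
    have : x * (Real.log s / (2 * Real.pi)) = h * Real.log s := by rw [hh]; ring
    rw [this]; ring
  have u1 : Real.log ((s + h) / s) ≤ (s + h) / s - 1 := Real.log_le_sub_one_of_pos (by positivity)
  have u2 : 1 - ((s + h) / s)⁻¹ ≤ Real.log ((s + h) / s) := Real.one_sub_inv_le_log_of_pos (by positivity)
  have v1 : (s + h) * Real.log ((s + h) / s) ≤ (s + h) * ((s + h) / s - 1) := mul_le_mul_of_nonneg_left u1 (by positivity)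
  have v2 : (s + h) * (1 - ((s + h) / s)⁻¹) ≤ (s + h) * Real.log ((s + h) / s) := mul_le_mul_of_nonneg_left u2 (by positivity)
  have w1 : (s + h) * ((s + h) / s - 1) - h = h ^ 2 / s := by field_simp; ring
  have w2 : (s + h) * (1 - ((s + h) / s)⁻¹) = h := by
    have : s + h ≠ 0 := by positivity
    field_simp; ring
  have w3 : h ^ 2 / s = x ^ 2 / (2 * Real.pi * t) := by rw [hh, hs]; field_simp
  rw [e, ← w3, abs_le]
  constructor
  · have : 0 ≤ h ^ 2 / s := by positivity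
    linarith
  · linarith

lemma meas_Mf : Measurable Mf := by
  unfold Mf
  fun_prop

lemma meas_sg {N : ℝ → ℕ} (hN : Monotone N) : Measurable (sg N) := by
  unfold sg
  have h1 : Measurable (fun t => (N t : ℝ)) := by
    have : Monotone (fun t => (N t : ℝ)) := fun a b hab => by
      show (N a : ℝ) ≤ (N b : ℝ)
      exact_mod_cast hN hab
    exact this.measurable
  exact h1.sub meas_Mf

theorem t_DET : S_DET := by
  intro C1 B hC1 hB
  have hpi := Real.pi_pos
  refine ⟨24, 10 + 2 * Real.pi * B + 2 * Real.pi * B ^ 2 + 12 * (C1 * (2 * Real.pi * B ^ 2)) ^ 2, by norm_num, ?_, ?_⟩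
  · have : 0 ≤ 2 * Real.pi * B + 2 * Real.pi * B ^ 2 + 12 * (C1 * (2 * Real.pi * B ^ 2)) ^ 2 := by positivity
    linarith
  intro N g hC T hT Λ hΛ hΛB t ht ht2
  obtain ⟨K, hK⟩ : ∃ K : ℝ, K = 2 * Real.pi * B ^ 2 := ⟨_, rfl⟩
  rw [← hK] at hT
  have hK0 : 0 < K := by rw [hK]; positivity
  have hpB : 0 < 2 * Real.pi * B := by positivity
  have hT10 : 10 ≤ T := by
    have : 0 ≤ 12 * (C1 * K) ^ 2 := by positivity
    linarith
  have hT0 : 0 < T := by linarith
  have hTK : K ≤ T := by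
    have : 0 ≤ 12 * (C1 * K) ^ 2 := by positivity
    linarith
  have hTB : 2 * Real.pi * B ≤ T := by
    have : 0 ≤ 12 * (C1 * K) ^ 2 := by positivity
    linarith
  have hT12 : 12 * (C1 * K) ^ 2 ≤ T := by linarith
  have hlog : 0 < Real.log T := Real.log_pos (by linarith)
  obtain ⟨l, hl⟩ : ∃ l : ℝ, l = ell T Λ := ⟨_, rfl⟩
  have hl0 : 0 < l := by rw [hl]; unfold ell; positivity
  have hlB : l ≤ 2 * Real.pi * B := by
    rw [hl]; unfold ell
    rw [div_le_iff₀ hlog]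
    have : 2 * Real.pi * Λ ≤ 2 * Real.pi * (B * Real.log T) := mul_le_mul_of_nonneg_left hΛB (by positivity)
    linarith
  rw [← hl]
  obtain ⟨f, hf⟩ : ∃ f : ℝ → ℝ, f = fun x => sg N (t + x) := ⟨_, rfl⟩
  have hft : ∀ x, f x = sg N (t + x) := fun x => by rw [hf]
  have hFb : ∀ x ∈ Icc (0:ℝ) l, |f x| ≤ C1 * Real.log (3 * T) := by
    intro x hx
    rw [hft]
    refine (hC.rvm (t + x) (by linarith [hx.1])).trans ?_
    refine mul_le_mul_of_nonneg_left (Real.log_le_log (by linarith [hx.1]) ?_) (by linarith)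
    linarith [hx.2]
  have hRb : ∀ x ∈ Icc (0:ℝ) l, |rho t x| ≤ K / T := by
    intro x hx
    refine (rho_bd (by linarith) hx.1).trans ?_
    have h1 : x ^ 2 ≤ (2 * Real.pi * B) ^ 2 := by
      have := hx.2.trans hlB
      exact pow_le_pow_left₀ hx.1 this 2
    calc x ^ 2 / (2 * Real.pi * t) ≤ (2 * Real.pi * B) ^ 2 / (2 * Real.pi * T) := by
          gcongr
      _ = K / T := by rw [hK]; field_simp
  have gf : Good l f := by
    refine ⟨?_, _, hFb⟩
    rw [hf]
    exact (meas_sg hC.mono).comp (measurable_const_add t)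
  have gρ : Good l (rho t) := by
    refine ⟨?_, _, hRb⟩
    unfold rho
    exact ((meas_Mf.comp (measurable_const_add t)).sub_const _).sub (measurable_id.mul_const _)
  have hR1 : K / T ≤ 1 := by rw [div_le_one hT0]; exact hTK
  have hFR : C1 * Real.log (3 * T) * (K / T) ≤ 1 := by
    have h3T : 0 < Real.sqrt (3 * T) := Real.sqrt_pos.2 (by positivity)
    have h1 : Real.log (3 * T) ≤ 2 * Real.sqrt (3 * T) := by
      have h2 : Real.log (Real.sqrt (3 * T)) = Real.log (3 * T) / 2 := Real.log_sqrt (by positivity)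
      have h3 := Real.log_le_sub_one_of_pos h3T
      linarith
    have h4 : C1 * Real.log (3 * T) * (K / T) ≤ C1 * (2 * Real.sqrt (3 * T)) * (K / T) := by gcongr
    refine h4.trans ?_
    have h5 : C1 * (2 * Real.sqrt (3 * T)) * (K / T) = (2 * (C1 * K) * Real.sqrt (3 * T)) / T := by ring
    rw [h5, div_le_one hT0]
    have h6 : (2 * (C1 * K) * Real.sqrt (3 * T)) ^ 2 ≤ T ^ 2 := by
      rw [mul_pow, Real.sq_sqrt (by positivity)]
      have : 12 * (C1 * K) ^ 2 * T ≤ T * T := mul_le_mul_of_nonneg_right hT12 hT0.le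
      nlinarith
    exact (pow_le_pow_iff_left₀ (by positivity) hT0.le (by norm_num)).1 h6
  obtain ⟨m, hm⟩ : ∃ m : ℝ, m = 1 / l * ∫ x in (0:ℝ)..l, f x := ⟨_, rfl⟩
  obtain ⟨G, hG⟩ : ∃ G : ℝ, G = 1 / l ^ 2 * ∫ x in (0:ℝ)..l, (x - l / 2) * f x := ⟨_, rfl⟩
  have hGl : Gl N l t = G := by rw [hG]; unfold Gl; simp only [hft]
  have hDv : Dv N l t = 1 / l * (∫ x in (0:ℝ)..l, f x ^ 2) - m ^ 2 := by
    rw [hm, ← var_eq hl0 gf]
    unfold Dv Uu
    simp only [hft]
  obtain ⟨lam, hlam⟩ : ∃ lam : ℝ, lam = Real.log (t / (2 * Real.pi)) / (2 * Real.pi) := ⟨_, rfl⟩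
  have hval : ∀ p : ℝ × ℝ, 1 / l * (∫ y in t..(t + l), ((N y : ℝ) - p.1 - p.2 * y) ^ 2) =
      1 / l * (∫ x in (0:ℝ)..l, (f x + rho t x - (p.1 + p.2 * t - Mf t + (p.2 - lam) * (l / 2)) - (p.2 - lam) * (x - l / 2)) ^ 2) := by
    intro p
    congr 1
    have := intervalIntegral.integral_comp_add_left (a := (0:ℝ)) (b := l) (fun y => ((N y : ℝ) - p.1 - p.2 * y) ^ 2) t
    rw [add_zero] at this
    rw [← this]
    refine intervalIntegral.integral_congr fun x _ => ?_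
    simp only [hft]
    unfold rho sg
    rw [← hlam]
    ring
  have hbdd : BddBelow (range fun p : ℝ × ℝ => 1 / l * (∫ y in t..(t + l), ((N y : ℝ) - p.1 - p.2 * y) ^ 2)) := by
    refine ⟨0, ?_⟩
    rintro _ ⟨p, rfl⟩
    have : 0 ≤ ∫ y in t..(t + l), ((N y : ℝ) - p.1 - p.2 * y) ^ 2 :=
      intervalIntegral.integral_nonneg (by linarith) (fun y _ => sq_nonneg _)
    positivity
  have hup : D3 N l t ≤ Dv N l t + 5 := by
    unfold D3
    refine (ciInf_le hbdd (m + Mf t - lam * t, lam)).trans ?_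
    rw [hval, hDv]
    have h1 := upper hl0 gf gρ hFb hRb hFR hR1 m hm
    refine le_trans (le_of_eq ?_) h1
    congr 1
    refine intervalIntegral.integral_congr fun x _ => ?_
    simp only
    ring
  have hlo : Dv N l t - 5 - 24 * G ^ 2 ≤ D3 N l t := by
    unfold D3
    refine le_ciInf fun p => ?_
    rw [hval, hDv]
    exact lower hl0 gf gρ hFb hRb hFR hR1 m G hm hG _ _
  rw [hGl, abs_le]
  constructor
  · nlinarith [sq_nonneg G]
  · nlinarith [sq_nonneg G]

end Pool.Agent.U505.MV8.DET
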